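import Mathlib

/-!
# An identity of Euler

`∏_{j ≥ 0} (1 + 2 ^ (-j))⁻¹ = 1/2 ∏_{i ≥ 1} (1 - 2 ^ (1 - 2 i))`.
-/

set_option autoImplicit false
set_option linter.all false

open Filter Topology

namespace Pool.Agent.Run7.h245.DJ

theorem fin_id (n : ℕ) : (∏ j ∈ Finset.range (n + 1), (1 + (2 : ℝ)⁻¹ ^ j)) *
    (∏ i ∈ Finset.range n, (1 - (2 : ℝ)⁻¹ ^ (2 * i + 1))) *
    ∏ j ∈ Finset.range n, (1 - (2 : ℝ)⁻¹ ^ (j + 1)) =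
    2 * ∏ j ∈ Finset.range (2 * n), (1 - (2 : ℝ)⁻¹ ^ (j + 1)) := by
  induction n with
  | zero => simp; norm_num
  | succ n ih =>
    have e1 := Finset.prod_range_succ (fun j => 1 + (2 : ℝ)⁻¹ ^ j) (n + 1)
    have e2 := Finset.prod_range_succ (fun i => 1 - (2 : ℝ)⁻¹ ^ (2 * i + 1)) n
    have e3 := Finset.prod_range_succ (fun j => 1 - (2 : ℝ)⁻¹ ^ (j + 1)) n
    have e4 := Finset.prod_range_succ (fun j => 1 - (2 : ℝ)⁻¹ ^ (j + 1)) (2 * n + 1)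
    have e5 := Finset.prod_range_succ (fun j => 1 - (2 : ℝ)⁻¹ ^ (j + 1)) (2 * n)
    rw [e1, e2, e3, show 2 * (n + 1) = 2 * n + 1 + 1 by ring, e4, e5]
    linear_combination ((1 + (2 : ℝ)⁻¹ ^ (n + 1)) * (1 - (2 : ℝ)⁻¹ ^ (n + 1)) *
      (1 - (2 : ℝ)⁻¹ ^ (2 * n + 1))) * ih

theorem low (n k : ℕ) : 1 - (2 : ℝ)⁻¹ ^ n + (2 : ℝ)⁻¹ ^ (n + k) ≤
    ∏ j ∈ Finset.range k, (1 - (2 : ℝ)⁻¹ ^ (n + j + 1)) := by
  induction k with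
  | zero => simp
  | succ k ih =>
    rw [Finset.prod_range_succ]
    have h1 : (0 : ℝ) < (2 : ℝ)⁻¹ ^ (n + k + 1) := by positivity
    have h2 : (2 : ℝ)⁻¹ ^ (n + k) = 2 * (2 : ℝ)⁻¹ ^ (n + k + 1) := by rw [pow_succ]; ring
    have h3 : (2 : ℝ)⁻¹ ^ (n + k + 1) ≤ 1 := pow_le_one₀ (by norm_num) (by norm_num)
    have h4 : (2 : ℝ)⁻¹ ^ (n + k) ≤ (2 : ℝ)⁻¹ ^ n :=
      pow_le_pow_of_le_one (by norm_num) (by norm_num) (by omega)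
    have h5 : (1 - (2 : ℝ)⁻¹ ^ n + (2 : ℝ)⁻¹ ^ (n + k)) * (1 - (2 : ℝ)⁻¹ ^ (n + k + 1)) ≤
        (∏ j ∈ Finset.range k, (1 - (2 : ℝ)⁻¹ ^ (n + j + 1))) * (1 - (2 : ℝ)⁻¹ ^ (n + k + 1)) :=
      mul_le_mul_of_nonneg_right ih (by linarith)
    refine le_trans ?_ h5
    rw [show n + (k + 1) = n + k + 1 by ring]
    nlinarith

theorem up (n k : ℕ) : ∏ j ∈ Finset.range k, (1 - (2 : ℝ)⁻¹ ^ (n + j + 1)) ≤ 1 := by
  refine Finset.prod_le_one (fun j _ => ?_) fun j _ => ?_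
  · have h3 : (2 : ℝ)⁻¹ ^ (n + j + 1) ≤ 1 := pow_le_one₀ (by norm_num) (by norm_num)
    linarith
  · have h1 : (0 : ℝ) < (2 : ℝ)⁻¹ ^ (n + j + 1) := by positivity
    linarith

theorem key (n : ℕ) : (∏ j ∈ Finset.range (n + 1), (1 + (2 : ℝ)⁻¹ ^ j)) *
    (∏ i ∈ Finset.range n, (1 - (2 : ℝ)⁻¹ ^ (2 * i + 1))) =
    2 * ∏ j ∈ Finset.range n, (1 - (2 : ℝ)⁻¹ ^ (n + j + 1)) := by
  have h1 := fin_id n
  have h2 : (∏ j ∈ Finset.range (2 * n), (1 - (2 : ℝ)⁻¹ ^ (j + 1))) =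
      (∏ j ∈ Finset.range n, (1 - (2 : ℝ)⁻¹ ^ (j + 1))) *
      ∏ j ∈ Finset.range n, (1 - (2 : ℝ)⁻¹ ^ (n + j + 1)) := by
    rw [show 2 * n = n + n by ring, Finset.prod_range_add]
  have h3 : (0 : ℝ) < ∏ j ∈ Finset.range n, (1 - (2 : ℝ)⁻¹ ^ (j + 1)) := by
    refine Finset.prod_pos fun j _ => ?_
    have : (2 : ℝ)⁻¹ ^ (j + 1) < 1 := pow_lt_one₀ (by norm_num) (by norm_num) (by omega)
    linarith
  rw [h2] at h1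
  refine mul_right_cancel₀ h3.ne' (h1.trans ?_)
  ring

theorem euler : (∏' j : ℕ, (1 + (2 : ℝ)⁻¹ ^ j))⁻¹ =
    1 / 2 * ∏' i : ℕ, (1 - (2 : ℝ)⁻¹ ^ (2 * i + 1)) := by
  have hs1 : Summable fun j : ℕ => (2 : ℝ)⁻¹ ^ j :=
    summable_geometric_of_lt_one (by norm_num) (by norm_num)
  have hs2 : Summable fun i : ℕ => ‖-(2 : ℝ)⁻¹ ^ (2 * i + 1)‖ := by
    have h1 : ∀ i : ℕ, ‖-(2 : ℝ)⁻¹ ^ (2 * i + 1)‖ = (2 : ℝ)⁻¹ * ((4 : ℝ)⁻¹ ^ i) := by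
      intro i
      rw [norm_neg, Real.norm_of_nonneg (by positivity), pow_succ, pow_mul]
      norm_num
      ring
    simp only [h1]
    exact (summable_geometric_of_lt_one (by norm_num) (by norm_num)).mul_left _
  have hs1' : Summable fun j : ℕ => ‖(2 : ℝ)⁻¹ ^ j‖ := hs1.norm
  have hm1 := (multipliable_one_add_of_summable hs1').hasProd.tendsto_prod_nat
  have hm2 := (multipliable_one_add_of_summable hs2).hasProd.tendsto_prod_nat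
  have e2 : ∀ i : ℕ, 1 + -(2 : ℝ)⁻¹ ^ (2 * i + 1) = 1 - (2 : ℝ)⁻¹ ^ (2 * i + 1) := fun i => by ring
  simp only [e2] at hm2
  have h1 := ((tendsto_add_atTop_iff_nat 1).2 hm1).mul hm2
  have h2 : Tendsto (fun n : ℕ => 2 * ∏ j ∈ Finset.range n, (1 - (2 : ℝ)⁻¹ ^ (n + j + 1))) atTop
      (𝓝 (2 * 1)) := by
    refine Tendsto.const_mul 2 ?_
    have h3 : Tendsto (fun n : ℕ => 1 - (2 : ℝ)⁻¹ ^ n) atTop (𝓝 (1 - 0)) :=
      tendsto_const_nhds.sub (tendsto_pow_atTop_nhds_zero_of_lt_one (by norm_num) (by norm_num))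
    rw [sub_zero] at h3
    refine tendsto_of_tendsto_of_tendsto_of_le_of_le h3 tendsto_const_nhds (fun n => ?_)
      fun n => up n n
    have h4 := low n n
    have h5 : (0 : ℝ) < (2 : ℝ)⁻¹ ^ (n + n) := by positivity
    show 1 - (2 : ℝ)⁻¹ ^ n ≤ _
    linarith
  have h3 : ∀ n : ℕ, (∏ j ∈ Finset.range (n + 1), (1 + (2 : ℝ)⁻¹ ^ j)) *
    (∏ i ∈ Finset.range n, (1 - (2 : ℝ)⁻¹ ^ (2 * i + 1))) =
    2 * ∏ j ∈ Finset.range n, (1 - (2 : ℝ)⁻¹ ^ (n + j + 1)) := key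
  simp only [h3] at h1
  have h4 := tendsto_nhds_unique h1 h2
  have h5 : (∏' j : ℕ, (1 + (2 : ℝ)⁻¹ ^ j)) ≠ 0 := by
    intro h
    rw [h, zero_mul] at h4
    norm_num at h4
  rw [inv_eq_one_div, div_eq_iff h5]
  linear_combination (-(1 : ℝ) / 2) * h4

end Pool.Agent.Run7.h245.DJ
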