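import Pool.Agent.Run7.h803.MO.RK

/-!
# The 2-infinity Selmer group of a curve without rational points of order two
-/

set_option autoImplicit false
set_option linter.all false

open NumberField Polynomial IsDedekindDomain WeierstrassCurve WeierstrassCurve.Affine
open scoped Classical

namespace Pool.Agent.Run7.h245.DJ

open Pool.Agent.Run7.h245.SR (Sel2 SelCoc SelEqv selEqv_equivalence cb)
open Pool.Agent.TH115.GD
open Pool.Agent.N874.PP (sW)
open Pool.Agent.N721.PP (half)

section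

variable {K : Type} [Field K]

/-- No points of order two. -/
theorem notwo (h2 : (2 : K) ≠ 0) {A B : K} (hirr : Irreducible (cb A B)) (Q : Pt (sW A B) K)
    (h : Q + Q = 0) : Q = 0 := by
  rcases Q with _ | ⟨x, y, hxy⟩
  · rfl
  · exfalso
    have h1 : (Point.some x y hxy : Pt (sW A B) K) = -Point.some x y hxy := eq_neg_of_add_eq_zero_left h
    have h2' := hxy.1
    rw [Point.neg_some] at h1
    have h3 : y = ((sW A B).baseChange K).toAffine.negY x y := by
      injection h1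
    have h4 : y = -y := by
      have e : ((sW A B).baseChange K).toAffine.negY x y = -y := by
        simp [WeierstrassCurve.Affine.negY, sW, WeierstrassCurve.baseChange, WeierstrassCurve.map]
      rw [e] at h3
      exact h3
    rw [WeierstrassCurve.Affine.equation_iff] at h2'
    have h5 : y ^ 2 = x ^ 3 + A * x + B := by
      have e := h2'
      simp only [sW, WeierstrassCurve.baseChange, WeierstrassCurve.map, map_zero, zero_mul,
        add_zero, Algebra.algebraMap_self_apply] at e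
      linear_combination e
    have h6 : y ^ 2 = 0 := by
      have h8 : (2 : K) * y = 0 := by linear_combination h4
      rw [(mul_eq_zero.1 h8).resolve_left h2]
      ring
    have h7 : (cb A B).IsRoot x := by
      rw [Polynomial.IsRoot.def]
      simp only [cb, eval_add, eval_pow, eval_X, eval_mul, eval_C]
      rw [← h5, h6]
    have h8 := Polynomial.degree_eq_one_of_irreducible_of_root hirr h7
    have h9 : (cb A B).degree = 3 := by
      unfold cb
      compute_degree!
    rw [h9] at h8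
    norm_num at h8

theorem notwo_pow (h2 : (2 : K) ≠ 0) {A B : K} (hirr : Irreducible (cb A B)) (n : ℕ)
    (Q : Pt (sW A B) K) (h : 2 ^ n • Q = 0) : Q = 0 := by
  induction n with
  | zero => simpa using h
  | succ n ih =>
    refine ih (notwo h2 hirr _ ?_)
    rw [← two_nsmul, smul_smul, ← pow_succ']
    exact h

/-- Invariant points of 2-power order. -/
theorem fixed_zero [CharZero K] {A B : K} (hirr : Irreducible (cb A B)) (n : ℕ)
    (T : Pt (sW A B) (Sep K)) (hn : 2 ^ n • T = 0)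
    (hT : ∀ σ : Sep K ≃ₐ[K] Sep K, act (sW A B) (rs K σ) T = T) : T = 0 := by
  haveI : Algebra.IsSeparable K (Sep K) := IsSepClosure.separable
  haveI : IsGalois K (Sep K) := inferInstance
  obtain ⟨Q, hQ⟩ := fixed_point (K := K) (F := K) (sW A B) T hT
  have h1 : Q = 0 := by
    refine notwo_pow (by norm_num) hirr n Q (act_inj (sW A B) (incl K K (Sep K)) ?_)
    rw [map_nsmul, hQ, hn, map_zero]
  rw [← hQ, h1, map_zero]

theorem locTriv_sub {L : Type} [Field L] [Algebra K L] (W : WeierstrassCurve K) (R : Pt W (Sep K))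
    {f : (Sep K ≃ₐ[K] Sep K) → Pt W (Sep K)} (hf : LocTriv W L (Sep L) f) :
    LocTriv W L (Sep L) (fun σ : Sep K ≃ₐ[K] Sep K => f σ - (act W (rs K σ) R - R)) := by
  obtain ⟨ι, P, h⟩ := hf
  refine ⟨ι, P - act W (ι.restrictScalars K) R, fun τ σ hτ => ?_⟩
  have h5 : (ι.restrictScalars K).comp (rs K σ) = (rs K τ).comp (ι.restrictScalars K) :=
    AlgHom.ext fun x => (hτ x).symm
  show act W (ι.restrictScalars K) (f σ - (act W (rs K σ) R - R)) = _
  rw [map_sub, map_sub, map_sub, h τ σ hτ, act_act, act_act, h5]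
  abel

theorem locTriv_nsmul {L : Type} [Field L] [Algebra K L] (W : WeierstrassCurve K) (n : ℕ)
    {f : (Sep K ≃ₐ[K] Sep K) → Pt W (Sep K)} (hf : LocTriv W L (Sep L) f) :
    LocTriv W L (Sep L) (fun σ : Sep K ≃ₐ[K] Sep K => n • f σ) := by
  obtain ⟨ι, P, h⟩ := hf
  refine ⟨ι, n • P, fun τ σ hτ => ?_⟩
  show act W (ι.restrictScalars K) (n • f σ) = _
  rw [map_nsmul, map_nsmul, h τ σ hτ, nsmul_sub]

theorem isCoc_sub (W : WeierstrassCurve K) [IsGalois K (Sep K)] (R : Pt W (Sep K))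
    {f : (Sep K ≃ₐ[K] Sep K) → Pt W (Sep K)} (hf : IsCoc W f) :
    IsCoc W (fun σ : Sep K ≃ₐ[K] Sep K => f σ - (act W (rs K σ) R - R)) := by
  have hc := cob_isCoc (K := K) (F := K) W R
  refine ⟨?_, fun σ τ => ?_⟩
  · exact hf.lc.comp₂ hc.lc (fun a b => a - b)
  · show f (σ * τ) - (act W (rs K (σ * τ)) R - R) = f σ - (act W (rs K σ) R - R) +
      act W (rs K σ) (f τ - (act W (rs K τ) R - R))
    have h1 := hf.mul σ τ
    have h2 : act W (rs K (σ * τ)) R - R = (act W (rs K σ) R - R) +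
      act W (rs K σ) (act W (rs K τ) R - R) := hc.mul σ τ
    rw [h1, h2, map_sub (act W (rs K σ)) (f τ) (act W (rs K τ) R - R)]
    abel

theorem isCoc_nsmul (W : WeierstrassCurve K) (n : ℕ)
    {f : (Sep K ≃ₐ[K] Sep K) → Pt W (Sep K)} (hf : IsCoc W f) :
    IsCoc W (fun σ : Sep K ≃ₐ[K] Sep K => n • f σ) := by
  refine ⟨hf.lc.comp (fun P => n • P), fun σ τ => ?_⟩
  show n • f (σ * τ) = n • f σ + act W (rs K σ) (n • f τ)
  rw [hf.mul σ τ, nsmul_add, map_nsmul]

end

/-- A continuous cocycle with values in the points of order `2 ^ m`, for some `m`, which is a coboundary over all completions. -/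
structure InfCoc {K : Type} [Field K] [NumberField K] (W : WeierstrassCurve K)
    (f : (Sep K ≃ₐ[K] Sep K) → Pt W (Sep K)) : Prop where
  coc : IsCoc W f
  tor : ∃ m : ℕ, ∀ σ, 2 ^ m • f σ = 0
  finite : ∀ v : HeightOneSpectrum (𝓞 K), LocTriv W (Comp (𝓞 K) K v) (Sep (Comp (𝓞 K) K v)) f
  real : ∀ ρ : K →+* ℝ, letI := ρ.toAlgebra; LocTriv W ℝ (Sep ℝ) f

/-- The cocycles differ by the coboundary of a point of 2-power order. -/
def InfEqv {K : Type} [Field K] (W : WeierstrassCurve K)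
    (f f' : (Sep K ≃ₐ[K] Sep K) → Pt W (Sep K)) : Prop :=
  ∃ T : Pt W (Sep K), (∃ n : ℕ, 2 ^ n • T = 0) ∧ ∀ σ, f σ - f' σ = act W (rs K σ) T - T

section

variable {K : Type} [Field K] [NumberField K]

theorem InfCoc.sub {W : WeierstrassCurve K} {f : (Sep K ≃ₐ[K] Sep K) → Pt W (Sep K)}
    (hf : InfCoc W f) (R : Pt W (Sep K)) (hR : ∃ n : ℕ, 2 ^ n • R = 0) :
    InfCoc W (fun σ : Sep K ≃ₐ[K] Sep K => f σ - (act W (rs K σ) R - R)) := by
  haveI : Algebra.IsSeparable K (Sep K) := IsSepClosure.separable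
  haveI : IsGalois K (Sep K) := inferInstance
  obtain ⟨n, hn⟩ := hR
  obtain ⟨m, hm⟩ := hf.tor
  refine ⟨isCoc_sub W R hf.coc, ⟨m + n, fun σ => ?_⟩, fun v => locTriv_sub W R (hf.finite v),
    fun ρ => ?_⟩
  · have e1 : 2 ^ (m + n) • f σ = 0 := by rw [pow_add, mul_comm, mul_smul, hm, smul_zero]
    have e2 : 2 ^ (m + n) • R = 0 := by rw [pow_add, mul_smul, hn, smul_zero]
    rw [nsmul_sub, nsmul_sub, ← map_nsmul, e1, e2, map_zero, sub_zero, sub_zero]
  · letI := ρ.toAlgebra
    exact locTriv_sub W R (hf.real ρ)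

/-- Divisibility. -/
theorem half_pow {A B : K} (hd : 4 * A ^ 3 + 27 * B ^ 2 ≠ 0) (m : ℕ) (T : Pt (sW A B) (Sep K)) :
    ∃ R : Pt (sW A B) (Sep K), 2 ^ m • R = T := by
  have h6 : (6 : K) ≠ 0 := by norm_num
  induction m with
  | zero => exact ⟨T, by simp⟩
  | succ m ih =>
    obtain ⟨R, hR⟩ := ih
    obtain ⟨R', hR'⟩ := half h6 hd R
    refine ⟨R', ?_⟩
    rw [pow_succ, mul_smul, two_nsmul, hR', hR]

/-- The cocycles of order two are Selmer cocycles of the curve. -/
theorem selCoc_iff {W : WeierstrassCurve K} {f : (Sep K ≃ₐ[K] Sep K) → Pt W (Sep K)} :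
    SelCoc K W f ↔ InfCoc W f ∧ ∀ σ, (2 : ℕ) • f σ = 0 :=
  ⟨fun h => ⟨⟨h.coc, ⟨1, by simpa using h.two⟩, h.finite, h.real⟩, h.two⟩,
    fun h => ⟨h.1.coc, h.2, h.1.finite, h.1.real⟩⟩

/-- Equivalence for cocycles of order two. -/
theorem eqv_two {A B : K} (hirr : Irreducible (cb A B))
    {f f' : (Sep K ≃ₐ[K] Sep K) → Pt (sW A B) (Sep K)} (h : ∀ σ, (2 : ℕ) • f σ = 0)
    (h' : ∀ σ, (2 : ℕ) • f' σ = 0) (he : InfEqv (sW A B) f f') : SelEqv K (sW A B) f f' := by
  obtain ⟨T, ⟨n, hn⟩, hT⟩ := he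
  refine ⟨T, ?_, hT⟩
  refine fixed_zero hirr n _ ?_ fun σ => ?_
  · rw [smul_comm, hn, smul_zero]
  · have h1 := congrArg (fun P => (2 : ℕ) • P) (hT σ)
    simp only [nsmul_sub, h, h', sub_zero] at h1
    rw [map_nsmul]
    exact (sub_eq_zero.1 h1.symm)

/-- If all classes of order two are trivial then all classes are trivial. -/
theorem all_trivial {A B : K} (hd : 4 * A ^ 3 + 27 * B ^ 2 ≠ 0)
    (h : ∀ f : (Sep K ≃ₐ[K] Sep K) → Pt (sW A B) (Sep K), SelCoc K (sW A B) f →
      SelEqv K (sW A B) f (fun _ => 0)) (m : ℕ) :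
    ∀ f : (Sep K ≃ₐ[K] Sep K) → Pt (sW A B) (Sep K), InfCoc (sW A B) f →
      (∀ σ, 2 ^ m • f σ = 0) → InfEqv (sW A B) f (fun _ => 0) := by
  haveI : Algebra.IsSeparable K (Sep K) := IsSepClosure.separable
  haveI : IsGalois K (Sep K) := inferInstance
  induction m with
  | zero =>
    intro f hf h0
    refine ⟨0, ⟨0, smul_zero _⟩, fun σ => ?_⟩
    have := h0 σ
    rw [pow_zero, one_smul] at this
    rw [this, map_zero]
  | succ m ih =>
    intro f hf h0
    obtain ⟨T, hT2, hT⟩ := h (fun σ => 2 ^ m • f σ) ⟨isCoc_nsmul _ _ hf.coc, fun σ => by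
        rw [smul_smul, ← pow_succ']
        exact h0 σ, fun v => locTriv_nsmul _ _ (hf.finite v), fun ρ => by
        letI := ρ.toAlgebra
        exact locTriv_nsmul _ _ (hf.real ρ)⟩
    obtain ⟨R, hR⟩ := half_pow hd m T
    have hRt : ∃ n : ℕ, 2 ^ n • R = 0 := ⟨m + 1, by rw [pow_succ', mul_smul, hR, hT2]⟩
    obtain ⟨T', hT'n, hT'⟩ := ih _ (hf.sub R hRt) fun σ => by
      have e := hT σ
      simp only [sub_zero] at e
      rw [nsmul_sub, nsmul_sub, ← map_nsmul, hR, e, sub_self]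
    obtain ⟨n, hn⟩ := hRt
    obtain ⟨n', hn'⟩ := hT'n
    refine ⟨T' + R, ⟨n + n', ?_⟩, fun σ => ?_⟩
    · have e1 : 2 ^ (n + n') • T' = 0 := by rw [pow_add, mul_smul, hn', smul_zero]
      have e2 : 2 ^ (n + n') • R = 0 := by rw [pow_add, mul_comm, mul_smul, hn, smul_zero]
      rw [nsmul_add, e1, e2, add_zero]
    · have e := hT' σ
      simp only [sub_zero] at e
      rw [map_add, sub_zero]
      have e2 : f σ = (act (sW A B) (rs K σ) T' - T') + (act (sW A B) (rs K σ) R - R) := by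
        rw [← e]
        abel
      rw [e2]
      abel

end

end Pool.Agent.Run7.h245.DJ
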